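import Pool.Agent.TH349.SA.Attr

/-!
# MP_a3bfa4_an: a spectral self-affine measure without overlap and without Hadamard triple

For `R = 12` and `B = {0, 1, 8, 9}` (in dimension one) the self-affine measure is spectral, the
pieces `τ_b(T)` of the attractor are pairwise disjoint (so there is no overlap), but no set `L` of
integers makes `(R, B, L)` a Hadamard triple. Moreover the digits are pairwise incongruent modulo
`12`, `0 ∈ B`, `#B < |det R|` and `B` generates `ℤ`, so that the example is not a rescaled one.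
-/

set_option autoImplicit false
open MeasureTheory Matrix
open scoped ENNReal Real

namespace Pool.Agent.Results.MP_a3bfa4_an.NoOverlapNoTriple

/-- All eigenvalues of the integer matrix `R` have modulus greater than one. -/
def IsExpanding {d : ℕ} (R : Matrix (Fin d) (Fin d) ℤ) : Prop :=
  ∀ z : ℂ, (R.map (Int.cast : ℤ → ℂ)).charpoly.IsRoot z → 1 < ‖z‖

/-- The map `τ_b(x) = R⁻¹ (x + b)`. -/
noncomputable def tau {d : ℕ} (R : Matrix (Fin d) (Fin d) ℤ) (b : Fin d → ℤ) (x : Fin d → ℝ) :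
    Fin d → ℝ :=
  (R.map (Int.cast : ℤ → ℝ))⁻¹ *ᵥ (x + fun i => (b i : ℝ))

/-- `T` is the attractor: nonempty, compact, and the union of the `τ_b(T)`. -/
def IsAttractor {d : ℕ} (R : Matrix (Fin d) (Fin d) ℤ) (B : Finset (Fin d → ℤ))
    (T : Set (Fin d → ℝ)) : Prop :=
  T.Nonempty ∧ IsCompact T ∧ T = ⋃ b ∈ B, tau R b '' T

/-- `μ` is the self-affine measure `μ(R, B)`: a Borel probability measure which is the average of
its images under the `τ_b`. -/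
def IsSelfAffineMeasure {d : ℕ} (R : Matrix (Fin d) (Fin d) ℤ) (B : Finset (Fin d → ℤ))
    (μ : Measure (Fin d → ℝ)) : Prop :=
  IsProbabilityMeasure μ ∧ μ = ((B.card : ℝ≥0∞)⁻¹) • ∑ b ∈ B, μ.map (tau R b)

/-- `μ` is spectral: for some countable `Λ` the functions `exp(2πi⟨λ, x⟩)`, `λ ∈ Λ`, are
orthonormal in `L²(μ)`, and a function in `L²(μ)` which is orthogonal to all of them is zero. -/
def IsSpectral {d : ℕ} (μ : Measure (Fin d → ℝ)) : Prop :=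
  ∃ Λ : Set (Fin d → ℝ), Λ.Countable ∧
    (∀ l ∈ Λ, ∀ l' ∈ Λ,
      (l = l' → ∫ x, Complex.exp (2 * π * Complex.I * ((∑ i, (l i - l' i) * x i : ℝ) : ℂ)) ∂μ = 1) ∧
      (l ≠ l' →
        ∫ x, Complex.exp (2 * π * Complex.I * ((∑ i, (l i - l' i) * x i : ℝ) : ℂ)) ∂μ = 0)) ∧
    ∀ f : (Fin d → ℝ) → ℂ, MemLp f 2 μ →
      (∀ l ∈ Λ,
        ∫ x, f x * Complex.exp (-(2 * π * Complex.I * ((∑ i, l i * x i : ℝ) : ℂ))) ∂μ = 0) →
      f =ᵐ[μ] 0

/-- No overlap: `μ(τ_b(T) ∩ τ_{b'}(T)) = 0` for `b ≠ b'`. -/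
def NoOverlap {d : ℕ} (R : Matrix (Fin d) (Fin d) ℤ) (B : Finset (Fin d → ℤ))
    (μ : Measure (Fin d → ℝ)) (T : Set (Fin d → ℝ)) : Prop :=
  ∀ b ∈ B, ∀ b' ∈ B, b ≠ b' → μ (tau R b '' T ∩ tau R b' '' T) = 0

/-- The matrix `N^{-1/2} (exp(2πi⟨R⁻¹ b, ℓ⟩))`, `ℓ ∈ L`, `b ∈ B`, `N = #B`. -/
noncomputable def hadamard {d : ℕ} (R : Matrix (Fin d) (Fin d) ℤ) (B L : Finset (Fin d → ℤ)) :
    Matrix L B ℂ :=
  fun l b => ((Real.sqrt B.card : ℝ) : ℂ)⁻¹ * Complex.exp (2 * π * Complex.I *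
    ((∑ i, ((R.map (Int.cast : ℤ → ℝ))⁻¹ *ᵥ (fun j => (b.1 j : ℝ))) i * (l.1 i : ℝ) : ℝ) : ℂ))

/-- `(R, B, L)` is a Hadamard triple: `#L = #B` and the matrix is unitary. -/
def IsHadamardTriple {d : ℕ} (R : Matrix (Fin d) (Fin d) ℤ) (B L : Finset (Fin d → ℤ)) : Prop :=
  L.card = B.card ∧ hadamard R B L * (hadamard R B L)ᴴ = 1 ∧
    (hadamard R B L)ᴴ * hadamard R B L = 1

theorem hadamard_entry (R : Matrix (Fin 1) (Fin 1) ℤ) (B L : Finset (Fin 1 → ℤ)) (l l' : L) :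
    ((hadamard R B L) * (hadamard R B L)ᴴ) l l' =
      (B.card : ℂ)⁻¹ * ∑ b ∈ B, Complex.exp (2 * π * Complex.I *
        ((∑ i, ((R.map (Int.cast : ℤ → ℝ))⁻¹ *ᵥ (fun j => (b j : ℝ))) i *
          ((l.1 i : ℝ) - (l'.1 i : ℝ)) : ℝ) : ℂ)) := by
  rw [Matrix.mul_apply, Finset.mul_sum, ← Finset.sum_coe_sort B]
  refine Finset.sum_congr rfl fun b _ => ?_
  rw [Matrix.conjTranspose_apply]
  unfold hadamard
  rw [star_mul', ← mul_assoc]
  have h1 : star (((Real.sqrt B.card : ℝ) : ℂ)⁻¹) = ((Real.sqrt B.card : ℝ) : ℂ)⁻¹ := by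
    rw [star_inv₀, Complex.star_def, Complex.conj_ofReal]
  have h2 : ((Real.sqrt B.card : ℝ) : ℂ)⁻¹ * ((Real.sqrt B.card : ℝ) : ℂ)⁻¹ = (B.card : ℂ)⁻¹ := by
    rw [← mul_inv, ← Complex.ofReal_mul, Real.mul_self_sqrt (Nat.cast_nonneg _),
      Complex.ofReal_natCast]
  have h3 : ∀ s t : ℝ, Complex.exp (2 * π * Complex.I * (s : ℂ)) *
      star (Complex.exp (2 * π * Complex.I * (t : ℂ))) =
      Complex.exp (2 * π * Complex.I * ((s - t : ℝ) : ℂ)) := by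
    intro s t
    rw [Complex.star_def, ← Complex.exp_conj, ← Complex.exp_add]
    congr 1
    simp only [map_mul, Complex.conj_ofReal, Complex.conj_I, Complex.ofReal_sub, map_ofNat]
    ring
  rw [h1]
  calc _ = (((Real.sqrt B.card : ℝ) : ℂ)⁻¹ * ((Real.sqrt B.card : ℝ) : ℂ)⁻¹) *
        (Complex.exp (2 * π * Complex.I *
          ((∑ i, ((R.map (Int.cast : ℤ → ℝ))⁻¹ *ᵥ (fun j => (b.1 j : ℝ))) i * (l.1 i : ℝ) : ℝ) : ℂ)) *
        star (Complex.exp (2 * π * Complex.I *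
          ((∑ i, ((R.map (Int.cast : ℤ → ℝ))⁻¹ *ᵥ (fun j => (b.1 j : ℝ))) i *
            (l'.1 i : ℝ) : ℝ) : ℂ)))) := by ring
    _ = _ := by
        rw [h2, h3]
        congr 4
        rw [← Finset.sum_sub_distrib]
        refine Finset.sum_congr rfl fun i _ => ?_
        ring

/-- **Main theorem.** For `R = 12` and `B = {0, 1, 8, 9}` the self-affine measure is spectral and
has no overlap (the pieces of the attractor are even pairwise disjoint), but no `L` makes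
`(R, B, L)` a Hadamard triple; `B` contains `0`, has fewer than `|det R|` elements, which are
pairwise incongruent modulo `R`, and generates `ℤ`. -/
theorem result :
    ∃ (R : Matrix (Fin 1) (Fin 1) ℤ) (B : Finset (Fin 1 → ℤ)) (μ : Measure (Fin 1 → ℝ))
      (T : Set (Fin 1 → ℝ)),
      R = (fun _ _ => 12) ∧ B = {fun _ => 0, fun _ => 1, fun _ => 8, fun _ => 9} ∧
      IsExpanding R ∧ 2 ≤ B.card ∧ IsSelfAffineMeasure R B μ ∧ IsAttractor R B T ∧
      IsSpectral μ ∧ NoOverlap R B μ T ∧ (¬ ∃ L, IsHadamardTriple R B L) ∧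
      (0 : Fin 1 → ℤ) ∈ B ∧ (B.card : ℤ) < |R.det| ∧
      (∀ b ∈ B, ∀ b' ∈ B, b ≠ b' → ¬ ∃ v : Fin 1 → ℤ, R *ᵥ v = b - b') ∧
      AddSubgroup.closure {v : Fin 1 → ℤ | ∃ k : ℕ, ∃ b ∈ B, v = (R ^ k) *ᵥ b} = ⊤ ∧
      (∀ T' : Set (Fin 1 → ℝ), IsAttractor R B T' →
        ∀ b ∈ B, ∀ b' ∈ B, b ≠ b' → Disjoint (tau R b '' T') (tau R b' '' T')) := by
  have hdis : ∀ T' : Set (Fin 1 → ℝ),
      IsAttractor Pool.Agent.TH284.Sp.R12 Pool.Agent.TH284.Sp.B4 T' →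
      ∀ b ∈ Pool.Agent.TH284.Sp.B4, ∀ b' ∈ Pool.Agent.TH284.Sp.B4, b ≠ b' →
        Disjoint (tau Pool.Agent.TH284.Sp.R12 b '' T') (tau Pool.Agent.TH284.Sp.R12 b' '' T') := by
    rintro T' ⟨h1, h2, h3⟩ b hb b' hb' hne
    exact Pool.Agent.TH349.SA.pieces_disjoint T' h2 h1 h3 b b' hb hb' hne
  have hT : IsAttractor Pool.Agent.TH284.Sp.R12 Pool.Agent.TH284.Sp.B4 Pool.Agent.TH349.SA.T0 :=
    ⟨Pool.Agent.TH349.SA.T0_nonempty, Pool.Agent.TH349.SA.T0_compact,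
      Pool.Agent.TH349.SA.T0_eq⟩
  refine ⟨Pool.Agent.TH284.Sp.R12, Pool.Agent.TH284.Sp.B4, Pool.Agent.TH284.Sp.mu,
    Pool.Agent.TH349.SA.T0, rfl, by decide, Pool.Agent.TH284.Sp.charpoly_root, ?_,
    ⟨inferInstance, Pool.Agent.TH284.Sp.mu_inv⟩, hT,
    ⟨Pool.Agent.TH284.Sp.Lam, Pool.Agent.TH349.SA.Lam_countable, ?_, ?_⟩, ?_, ?_,
    Pool.Agent.TH284.Sp.zero_mem, ?_, ?_, Pool.Agent.TH284.Sp.closure_top, hdis⟩
  · rw [Pool.Agent.TH284.Sp.card_B4]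
    norm_num
  · intro l hl l' hl'
    refine ⟨?_, fun hne => Pool.Agent.TH284.Sp.orth l l' hl hl' hne⟩
    rintro rfl
    exact Pool.Agent.TH284.Sp.unit l
  · intro f hf hfl
    exact Pool.Agent.TH284.Sp.complete_mu f hf hfl
  · intro b hb b' hb' hne
    rw [(hdis _ hT b hb b' hb' hne).inter_eq, measure_empty]
  · rintro ⟨L, hL, h1, -⟩
    refine Pool.Agent.TH284.Sp.no_L ⟨L, hL, fun l hl l' hl' => ⟨?_, fun hne => ?_⟩⟩
    · rintro rfl
      simp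
    · have h2 := congrFun (congrFun h1 ⟨l, hl⟩) ⟨l', hl'⟩
      have hc : (Pool.Agent.TH284.Sp.B4).card ≠ 0 := by
        rw [Pool.Agent.TH284.Sp.card_B4]
        norm_num
      rw [hadamard_entry, Matrix.one_apply_ne (by
        intro h
        exact hne (congrArg Subtype.val h))] at h2
      rcases mul_eq_zero.1 h2 with h3 | h3
      · exfalso
        rw [inv_eq_zero] at h3
        exact hc (by exact_mod_cast h3)
      · exact h3
  · rw [Pool.Agent.TH284.Sp.card_B4, Pool.Agent.TH284.Sp.det_R12]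
    norm_num
  · intro b hb b' hb' hne
    exact Pool.Agent.TH284.Sp.simple b b' hb hb' hne

end Pool.Agent.Results.MP_a3bfa4_an.NoOverlapNoTriple
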